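import Pool.Agent.T9h45.MC.Rect

/-!
# Sets of edges with few vertices in a class
-/

set_option autoImplicit false

namespace Pool.T9h45.MC

open Finset Pool.Agent.R181.LW Pool.Agent.R181.Maj

section

variable {r : ℕ} {X : Fin r → Type} [∀ i, DecidableEq (X i)]

/-- the number of the vertices of the edges in `T` -/
def vx (T : Finset (∀ i, X i)) : ℕ := ∑ i, #(T.image fun x => x i)

theorem vx_insert (T : Finset (∀ i, X i)) (y : ∀ i, X i) (S : Finset (Fin r))
    (hS : ∀ s ∈ S, y s ∈ T.image fun x => x s) : vx (insert y T) + #S ≤ vx T + r := by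
  unfold vx
  have h1 : ∀ i, #((insert y T).image fun x => x i) + (if i ∈ S then 1 else 0) ≤
      #(T.image fun x => x i) + 1 := by
    intro i
    rw [image_insert]
    by_cases hi : i ∈ S
    · rw [if_pos hi, insert_eq_of_mem (hS i hi)]
    · rw [if_neg hi, add_zero]
      exact card_insert_le _ _
  have h2 := sum_le_sum fun i (_ : i ∈ (univ : Finset (Fin r))) => h1 i
  rw [sum_add_distrib, sum_add_distrib] at h2
  simp only [sum_boole, sum_const, card_univ, Fintype.card_fin, smul_eq_mul, mul_one,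
    Nat.cast_id] at h2
  rw [filter_mem_eq_inter, univ_inter] at h2
  exact h2

theorem three_le {a b c m : ℕ} (ha : 1 ≤ a) (hb : 1 ≤ b) (hc : 1 ≤ c) (hab : a * b ≤ m)
    (hac : a * c ≤ m) (hbc : b * c ≤ m) : a + b + c ≤ m + 2 := by
  obtain ⟨a, rfl⟩ : ∃ x, a = x + 1 := ⟨a - 1, by omega⟩
  obtain ⟨b, rfl⟩ : ∃ x, b = x + 1 := ⟨b - 1, by omega⟩
  obtain ⟨c, rfl⟩ : ∃ x, c = x + 1 := ⟨c - 1, by omega⟩
  have h1 : (a + 1) * (b + 1) = a * b + a + b + 1 := by ring
  have h2 : (a + 1) * (c + 1) = a * c + a + c + 1 := by ring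
  have h3 : (b + 1) * (c + 1) = b * c + b + c + 1 := by ring
  rw [h1] at hab
  rw [h2] at hac
  rw [h3] at hbc
  rcases Nat.eq_zero_or_pos a with rfl | ha'
  · omega
  rcases Nat.eq_zero_or_pos b with rfl | hb'
  · omega
  rcases Nat.eq_zero_or_pos c with rfl | hc'
  · omega
  rcases le_total a b with h4 | h4
  · rcases le_total a c with h5 | h5
    · have : a ≤ b * c := h4.trans (Nat.le_mul_of_pos_right _ hc')
      omega
    · have : c ≤ a * b := h5.trans (Nat.le_mul_of_pos_right _ hb')
      omega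
  · rcases le_total b c with h5 | h5
    · have : b ≤ a * c := h4.trans (Nat.le_mul_of_pos_right _ hc')
      omega
    · have : c ≤ a * b := (h5.trans h4).trans (Nat.le_mul_of_pos_right _ hb')
      omega

theorem prod_le (T : Finset (∀ i, X i)) (i j : Fin r)
    (h : ∀ x ∈ T, ∀ y ∈ T, ∃ w ∈ T, w i = x i ∧ w j = y j) :
    #(T.image fun x => x i) * #(T.image fun x => x j) ≤ #T := by
  rw [← card_product]
  calc #((T.image fun x => x i) ×ˢ (T.image fun x => x j))
      ≤ #(T.image fun x => (x i, x j)) := by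
        refine card_le_card ?_
        rintro ⟨a, b⟩ hab
        rw [mem_product, mem_image, mem_image] at hab
        obtain ⟨⟨x, hx, hxa⟩, ⟨y, hy, hyb⟩⟩ := hab
        obtain ⟨w, hw, h1, h2⟩ := h x hx y hy
        rw [mem_image]
        exact ⟨w, hw, Prod.ext (h1.trans hxa) (h2.trans hyb)⟩
    _ ≤ #T := card_image_le

/-- growth -/
theorem grow (hr : 3 ≤ r) (L : Finset (∀ i, X i)) {i j k : Fin r} (hij : i ≠ j) (hik : i ≠ k)
    (hjk : j ≠ k) (h1 : ∀ x ∈ L, ∀ y ∈ L, ∃ w ∈ L, w i = x i ∧ w j = y j)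
    (h2 : ∀ x ∈ L, ∀ y ∈ L, ∃ w ∈ L, w i = x i ∧ w k = y k)
    (h3 : ∀ x ∈ L, ∀ y ∈ L, ∃ w ∈ L, w j = x j ∧ w k = y k) (m : ℕ) (hm : m + 1 ≤ #L) :
    ∃ T ⊆ L, #T = m + 1 ∧ vx T ≤ (r - 2) * (m + 1) + 3 := by
  induction m with
  | zero =>
    obtain ⟨x, hx⟩ : L.Nonempty := card_pos.1 (by omega)
    refine ⟨{x}, singleton_subset_iff.2 hx, card_singleton _, ?_⟩
    unfold vx
    simp only [image_singleton, card_singleton, sum_const, card_univ, Fintype.card_fin,
      smul_eq_mul, mul_one, zero_add]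
    omega
  | succ m ih =>
    obtain ⟨T, hTL, hTc, hTv⟩ := ih (by omega)
    -- adding an edge
    have add : ∀ y ∈ L, y ∉ T → ∀ S : Finset (Fin r), (∀ s ∈ S, y s ∈ T.image fun x => x s) →
        vx T + r ≤ (r - 2) * (m + 1 + 1) + 3 + #S →
        ∃ T ⊆ L, #T = m + 1 + 1 ∧ vx T ≤ (r - 2) * (m + 1 + 1) + 3 := by
      intro y hy hyT S hS hv
      refine ⟨insert y T, insert_subset hy hTL, ?_, ?_⟩
      · rw [card_insert_of_notMem hyT, hTc]
      · have := vx_insert T y S hS
        omega
    have hmul : (r - 2) * (m + 1 + 1) = (r - 2) * (m + 1) + (r - 2) := by ring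
    by_cases hex : ∃ y ∈ L, y ∉ T ∧ ∃ a b : Fin r, a ≠ b ∧ (y a ∈ T.image fun x => x a) ∧
        (y b ∈ T.image fun x => x b)
    · obtain ⟨y, hy, hyT, a, b, hab, ha, hb⟩ := hex
      refine add y hy hyT {a, b} ?_ ?_
      · intro s hs
        rw [mem_insert, mem_singleton] at hs
        rcases hs with rfl | rfl
        · exact ha
        · exact hb
      · rw [card_pair hab, hmul]
        omega
    · push Not at hex
      -- `T` is closed
      have hcl : ∀ a b : Fin r, a ≠ b → (∀ x ∈ L, ∀ y ∈ L, ∃ w ∈ L, w a = x a ∧ w b = y b) →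
          ∀ x ∈ T, ∀ y ∈ T, ∃ w ∈ T, w a = x a ∧ w b = y b := by
        intro a b hab h x hx y hy
        obtain ⟨w, hw, hwa, hwb⟩ := h x (hTL hx) y (hTL hy)
        refine ⟨w, ?_, hwa, hwb⟩
        by_contra hwT
        exact hex w hw hwT a b hab (by rw [hwa]; exact mem_image_of_mem _ hx)
          (by rw [hwb]; exact mem_image_of_mem _ hy)
      have p1 := prod_le T i j (hcl i j hij h1)
      have p2 := prod_le T i k (hcl i k hik h2)
      have p3 := prod_le T j k (hcl j k hjk h3)
      have hTne : T.Nonempty := card_pos.1 (by omega)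
      have hpos : ∀ a : Fin r, 1 ≤ #(T.image fun x => x a) := fun a => card_pos.2 (hTne.image _)
      have h4 := three_le (hpos i) (hpos j) (hpos k) p1 p2 p3
      have h5 : vx T ≤ (#(T.image fun x => x i) + #(T.image fun x => x j) +
          #(T.image fun x => x k)) + (r - 3) * #T := by
        unfold vx
        have hsub : ({i, j, k} : Finset (Fin r)) ⊆ univ := subset_univ _
        rw [← sum_sdiff hsub, sum_insert (by simp [hij, hik]), sum_pair hjk]
        have h6 : #((univ : Finset (Fin r)) \ {i, j, k}) = r - 3 := by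
          rw [card_sdiff_of_subset hsub, card_univ, Fintype.card_fin,
            card_eq_three.2 ⟨i, j, k, hij, hik, hjk, rfl⟩]
        have h7 : ∑ a ∈ (univ : Finset (Fin r)) \ {i, j, k}, #(T.image fun x => x a) ≤
            (r - 3) * #T := by
          rw [← h6, ← smul_eq_mul]
          exact sum_le_card_nsmul _ _ _ fun a _ => card_image_le
        omega
      have h8 : vx T ≤ (r - 2) * (m + 1) + 2 := by
        obtain ⟨s, rfl⟩ : ∃ s, r = s + 3 := ⟨r - 3, by omega⟩
        have h9 : s + 3 - 3 = s := by omega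
        have h10 : s + 3 - 2 = s + 1 := by omega
        rw [h9, hTc] at h5
        rw [hTc] at h4
        rw [h10]
        have : (s + 1) * (m + 1) = s * (m + 1) + (m + 1) := by ring
        omega
      -- a new edge with a vertex in common
      obtain ⟨y, hy, hyT⟩ : ∃ y ∈ L, y ∉ T := by
        by_contra hcon
        push Not at hcon
        have := card_le_card (show L ⊆ T from hcon)
        omega
      obtain ⟨x, hx⟩ := hTne
      obtain ⟨w, hw, hwi, hwj⟩ := h1 x (hTL hx) y hy
      by_cases hwT : w ∈ T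
      · refine add y hy hyT {j} ?_ ?_
        · intro s hs
          rw [mem_singleton] at hs
          subst hs
          rw [← hwj]
          exact mem_image_of_mem _ hwT
        · rw [card_singleton, hmul]
          omega
      · refine add w hw hwT {i} ?_ ?_
        · intro s hs
          rw [mem_singleton] at hs
          subst hs
          rw [hwi]
          exact mem_image_of_mem _ hx
        · rw [card_singleton, hmul]
          omega

/-- the number of the edges -/
theorem bound (hr : 3 ≤ r) (E : Finset (∀ i, X i)) (hE : Rect E) (e : ℕ) (he : 1 ≤ e)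
    (hs : ∀ T ⊆ E, #T = e → (r - 2) * e + 3 < vx T) {i j k : Fin r} (hij : i ≠ j)
    (hik : i ≠ k) (hjk : j ≠ k) :
    #E ^ 2 ≤ (e - 1) ^ 2 * (#(E.image fun x => x i) * #(E.image fun x => x j) *
      #(E.image fun x => x k)) := by
  classical
  rcases E.eq_empty_or_nonempty with rfl | hne
  · simp
  -- the classes are small
  have hfib : ∀ x ∈ E, #(E.filter fun y => tau E i j k y = tau E i j k x) ≤ e - 1 := by
    intro x hx
    by_contra hcon
    push Not at hcon
    set L := E.filter fun y => tau E i j k y = tau E i j k x with hL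
    have hmem : ∀ y, y ∈ L ↔ y ∈ E ∧ Sim E j k y x ∧ Sim E i k y x ∧ Sim E i j y x := by
      intro y
      rw [hL, mem_filter]
      constructor
      · rintro ⟨h1, h2⟩
        have e0 := congrFun h2 0
        have e1 := congrFun h2 1
        have e2 := congrFun h2 2
        exact ⟨h1, (cl_eq hE hjk h1 hx).1 e0, (cl_eq hE hik h1 hx).1 e1,
          (cl_eq hE hij h1 hx).1 e2⟩
      · rintro ⟨h1, h2, h3, h4⟩
        refine ⟨h1, ?_⟩
        funext a
        fin_cases a
        · exact (cl_eq hE hjk h1 hx).2 h2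
        · exact (cl_eq hE hik h1 hx).2 h3
        · exact (cl_eq hE hij h1 hx).2 h4
    have hsim : ∀ y ∈ L, ∀ z ∈ L, Sim E j k y z ∧ Sim E i k y z ∧ Sim E i j y z := by
      intro y hy z hz
      obtain ⟨a0, a1, a2, a3⟩ := (hmem y).1 hy
      obtain ⟨b0, b1, b2, b3⟩ := (hmem z).1 hz
      exact ⟨a1.trans hE hjk hx (b1.symm hE hjk b0 hx), a2.trans hE hik hx (b2.symm hE hik b0 hx),
        a3.trans hE hij hx (b3.symm hE hij b0 hx)⟩
    have hLw : ∀ y ∈ L, ∀ w ∈ E, Sim E j k y w → Sim E i k y w → Sim E i j y w → w ∈ L := by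
      intro y hy w hw h1 h2 h3
      obtain ⟨a0, a1, a2, a3⟩ := (hmem y).1 hy
      rw [hmem]
      exact ⟨hw, (h1.symm hE hjk a0 hw).trans hE hjk a0 a1,
        (h2.symm hE hik a0 hw).trans hE hik a0 a2, (h3.symm hE hij a0 hw).trans hE hij a0 a3⟩
    have hLE : ∀ y ∈ L, y ∈ E := fun y hy => ((hmem y).1 hy).1
    obtain ⟨T, hTL, hTc, hTv⟩ := grow hr L hij hik hjk
      (by
        intro y hy z hz
        obtain ⟨s1, s2, s3⟩ := hsim y hy z hz
        obtain ⟨w, hw, w1, w2⟩ := s3
        refine ⟨w, hLw y hy w hw ?_ (sim_of_left hw w1.symm) (sim_of_left hw w1.symm), w1, w2⟩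
        exact s1.trans hE hjk (hLE z hz) (sim_of_left hw w2.symm))
      (by
        intro y hy z hz
        obtain ⟨s1, s2, s3⟩ := hsim y hy z hz
        obtain ⟨w, hw, w1, w2⟩ := s2
        refine ⟨w, hLw y hy w hw ?_ (sim_of_left hw w1.symm) (sim_of_left hw w1.symm), w1, w2⟩
        exact s1.trans hE hjk (hLE z hz) (sim_of_right (hLE z hz) w2.symm))
      (by
        intro y hy z hz
        obtain ⟨s1, s2, s3⟩ := hsim y hy z hz
        obtain ⟨w, hw, w1, w2⟩ := s1
        refine ⟨w, hLw y hy w hw (sim_of_left hw w1.symm) ?_ (sim_of_right (hLE y hy) w1.symm),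
          w1, w2⟩
        exact s2.trans hE hik (hLE z hz) (sim_of_right (hLE z hz) w2.symm))
      (e - 1) (by omega)
    have h1 : e - 1 + 1 = e := by omega
    rw [h1] at hTc hTv
    have h2 := hs T (hTL.trans (filter_subset _ _)) hTc
    omega
  have h1 : #E ≤ (e - 1) * #(E.image (tau E i j k)) :=
    card_le_mul_card_image _ _ fun b hb => by
      obtain ⟨x, hx, rfl⟩ := mem_image.1 hb
      exact hfib x hx
  -- Loomis-Whitney
  have h2 := loomisWhitney 2 (fun _ => Finset (∀ i, X i)) (E.image (tau E i j k)) (hne.image _)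
  have key : ∀ (a : Fin 3) (b : Fin r), (∀ x ∈ E, ∀ y ∈ E, x b = y b →
      (fun c => a.removeNth (tau E i j k x) c) = fun c => a.removeNth (tau E i j k y) c) →
      #((E.image (tau E i j k)).image fun x => a.removeNth x) ≤ #(E.image fun x => x b) := by
    intro a b hab
    rw [image_image]
    have hex : ∀ v : X b, ∃ x, (v ∈ E.image fun x => x b) → x ∈ E ∧ x b = v := by
      intro v
      by_cases hv : v ∈ E.image fun x => x b
      · obtain ⟨x, hx, hxv⟩ := mem_image.1 hv
        exact ⟨x, fun _ => ⟨hx, hxv⟩⟩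
      · obtain ⟨x, _⟩ := hne
        exact ⟨x, fun h => absurd h hv⟩
    choose g hg using hex
    refine (card_le_card (t := (E.image fun x => x b).image
      fun v => a.removeNth (tau E i j k (g v))) ?_).trans card_image_le
    intro p hp
    obtain ⟨x, hx, rfl⟩ := mem_image.1 hp
    have hxm : x b ∈ E.image fun x => x b := mem_image_of_mem _ hx
    rw [mem_image]
    refine ⟨x b, hxm, ?_⟩
    exact hab _ (hg _ hxm).1 x hx (hg _ hxm).2
  have hti : ∀ x ∈ E, ∀ y ∈ E, x i = y i → cl E i k x = cl E i k y ∧ cl E i j x = cl E i j y :=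
    fun x hx y hy h => ⟨(cl_eq hE hik hx hy).2 (sim_of_left hy h),
      (cl_eq hE hij hx hy).2 (sim_of_left hy h)⟩
  have htj : ∀ x ∈ E, ∀ y ∈ E, x j = y j → cl E j k x = cl E j k y ∧ cl E i j x = cl E i j y :=
    fun x hx y hy h => ⟨(cl_eq hE hjk hx hy).2 (sim_of_left hy h),
      (cl_eq hE hij hx hy).2 (sim_of_right hx h)⟩
  have htk : ∀ x ∈ E, ∀ y ∈ E, x k = y k → cl E j k x = cl E j k y ∧ cl E i k x = cl E i k y :=
    fun x hx y hy h => ⟨(cl_eq hE hjk hx hy).2 (sim_of_right hx h),
      (cl_eq hE hik hx hy).2 (sim_of_right hx h)⟩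
  have k0 := key 0 i (by
    intro x hx y hy h
    obtain ⟨u1, u2⟩ := hti x hx y hy h
    funext c
    fin_cases c
    · exact u1
    · exact u2)
  have k1 := key 1 j (by
    intro x hx y hy h
    obtain ⟨u1, u2⟩ := htj x hx y hy h
    funext c
    fin_cases c
    · exact u1
    · exact u2)
  have k2 := key 2 k (by
    intro x hx y hy h
    obtain ⟨u1, u2⟩ := htk x hx y hy h
    funext c
    fin_cases c
    · exact u1
    · exact u2)
  rw [Fin.prod_univ_three] at h2
  calc #E ^ 2 ≤ ((e - 1) * #(E.image (tau E i j k))) ^ 2 := Nat.pow_le_pow_left h1 2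
    _ = (e - 1) ^ 2 * #(E.image (tau E i j k)) ^ 2 := mul_pow _ _ _
    _ ≤ _ := Nat.mul_le_mul_left _ (h2.trans (Nat.mul_le_mul (Nat.mul_le_mul k0 k1) k2))

end

end Pool.T9h45.MC
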