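import Pool.Agent.T9h45.MC.Piece

/-!
# The lines in some directions of a vector space of dimension three
-/

set_option autoImplicit false

namespace Pool.T9h45.MC

open Finset Pool.Agent.R181.LW Pool.Agent.R181.Maj

theorem quarter (m : ℕ) : m ^ 2 / 4 + (m + 1) / 2 = (m + 1) ^ 2 / 4 := by
  rcases Nat.even_or_odd' m with ⟨k, rfl | rfl⟩
  · have h1 : (2 * k) ^ 2 = 4 * k ^ 2 := by ring
    have h2 : (2 * k + 1) ^ 2 = 4 * (k ^ 2 + k) + 1 := by ring
    rw [h1, h2]
    omega
  · have h1 : (2 * k + 1) ^ 2 = 4 * (k ^ 2 + k) + 1 := by ring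
    have h2 : (2 * k + 1 + 1) ^ 2 = 4 * (k ^ 2 + 2 * k + 1) := by ring
    rw [h1, h2]
    omega

/-- points and lines without triangles -/
theorem mantel {P Q : Type} [DecidableEq P] [DecidableEq Q] {r : ℕ} (φ : Fin r → P → Q)
    (h2 : ∀ i j x y, x ≠ y → φ i x = φ i y → φ j x = φ j y → i = j)
    (h3 : ∀ i j k x y z, x ≠ y → y ≠ z → x ≠ z → φ i x = φ i y → φ j y = φ j z → φ k x = φ k z →
      i = j) (m : ℕ) :
    ∀ S : Finset P, #S = m → r * m ≤ ∑ i, #(S.image (φ i)) + m ^ 2 / 4 := by
  induction m with
  | zero => intro S _; simp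
  | succ m ih =>
    intro S hS
    have key : ∃ x ∈ S, #((univ : Finset (Fin r)).filter fun j =>
        φ j x ∈ (S.erase x).image (φ j)) ≤ (m + 1) / 2 := by
      by_cases hc : ∃ x ∈ S, ∃ y ∈ S, x ≠ y ∧ ∃ i, φ i x = φ i y
      · obtain ⟨x, hx, y, hy, hxy, i, hi⟩ := hc
        set D : P → Finset (Fin r) := fun z => (univ : Finset (Fin r)).filter fun j =>
          j ≠ i ∧ ∃ a ∈ (S.erase x).erase y, φ j z = φ j a with hD
        have hcard : #(D x) + #(D y) ≤ m - 1 := by
          have hex : ∀ z : P, ∀ j : Fin r, ∃ a : P, j ∈ D z →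
              a ∈ (S.erase x).erase y ∧ φ j z = φ j a := by
            intro z j
            by_cases hj : j ∈ D z
            · obtain ⟨-, -, a, ha, hza⟩ := mem_filter.1 hj
              exact ⟨a, fun _ => ⟨ha, hza⟩⟩
            · exact ⟨z, fun h => absurd h hj⟩
          choose g hg using hex
          have hne : ∀ a ∈ (S.erase x).erase y, a ≠ x ∧ a ≠ y := fun a ha =>
            ⟨(mem_erase.1 (mem_erase.1 ha).2).1, (mem_erase.1 ha).1⟩
          have i1 : Set.InjOn (g x) (D x) := by
            intro j hj k hk hjk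
            obtain ⟨a1, a2⟩ := hg x j hj
            obtain ⟨b1, b2⟩ := hg x k hk
            rw [← hjk] at b2
            exact h2 j k x (g x j) (hne _ a1).1.symm a2 b2
          have i2 : Set.InjOn (g y) (D y) := by
            intro j hj k hk hjk
            obtain ⟨a1, a2⟩ := hg y j hj
            obtain ⟨b1, b2⟩ := hg y k hk
            rw [← hjk] at b2
            exact h2 j k y (g y j) (hne _ a1).2.symm a2 b2
          have hdis : Disjoint ((D x).image (g x)) ((D y).image (g y)) := by
            rw [disjoint_left]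
            intro w hw hw'
            obtain ⟨j, hj, rfl⟩ := mem_image.1 hw
            obtain ⟨k, hk, hjk⟩ := mem_image.1 hw'
            obtain ⟨a1, a2⟩ := hg x j hj
            obtain ⟨b1, b2⟩ := hg y k hk
            rw [hjk] at b2
            have hki : k ≠ i := (mem_filter.1 hk).2.1
            exact hki (h3 i k j x y (g x j) hxy (hne _ a1).2.symm (hne _ a1).1.symm hi b2 a2).symm
          have hsub : (D x).image (g x) ∪ (D y).image (g y) ⊆ (S.erase x).erase y := by
            intro w hw
            rcases mem_union.1 hw with h | h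
            · obtain ⟨j, hj, rfl⟩ := mem_image.1 h
              exact (hg x j hj).1
            · obtain ⟨j, hj, rfl⟩ := mem_image.1 h
              exact (hg y j hj).1
          have h5 := card_le_card hsub
          rw [card_union_of_disjoint hdis, card_image_of_injOn i1, card_image_of_injOn i2,
            card_erase_of_mem (mem_erase.2 ⟨hxy.symm, hy⟩), card_erase_of_mem hx, hS] at h5
          omega
        have hm : 1 ≤ m := by
          have : 1 < #S := one_lt_card.2 ⟨x, hx, y, hy, hxy⟩
          omega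
        have hN : ∀ z w : P, (z = x ∧ w = y ∨ z = y ∧ w = x) →
            #((univ : Finset (Fin r)).filter fun j => φ j z ∈ (S.erase z).image (φ j)) ≤
              #(D z) + 1 := by
          intro z w hzw
          have hzw' : z ≠ w ∧ φ i z = φ i w := by
            rcases hzw with ⟨rfl, rfl⟩ | ⟨rfl, rfl⟩
            · exact ⟨hxy, hi⟩
            · exact ⟨hxy.symm, hi.symm⟩
          refine (card_le_card (t := insert i (D z)) ?_).trans (card_insert_le _ _)
          intro j hj
          obtain ⟨-, hj⟩ := mem_filter.1 hj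
          obtain ⟨a, ha, haz⟩ := mem_image.1 hj
          obtain ⟨haz', haS⟩ := mem_erase.1 ha
          rw [mem_insert]
          by_cases hji : j = i
          · exact Or.inl hji
          right
          refine mem_filter.2 ⟨mem_univ _, hji, a, ?_, haz.symm⟩
          have haw : a ≠ w := by
            rintro rfl
            exact hji (h2 j i z a hzw'.1 haz.symm hzw'.2)
          rcases hzw with ⟨rfl, rfl⟩ | ⟨rfl, rfl⟩
          · exact mem_erase.2 ⟨haw, mem_erase.2 ⟨haz', haS⟩⟩
          · exact mem_erase.2 ⟨haz', mem_erase.2 ⟨haw, haS⟩⟩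
        have n1 := hN x y (Or.inl ⟨rfl, rfl⟩)
        have n2 := hN y x (Or.inr ⟨rfl, rfl⟩)
        rcases le_total #(D x) #(D y) with h | h
        · exact ⟨x, hx, by omega⟩
        · exact ⟨y, hy, by omega⟩
      · push Not at hc
        obtain ⟨x, hx⟩ : S.Nonempty := card_pos.1 (by omega)
        refine ⟨x, hx, ?_⟩
        rw [filter_false_of_mem]
        · simp
        · intro j _ hj
          obtain ⟨a, ha, hax⟩ := mem_image.1 hj
          obtain ⟨h4, h5⟩ := mem_erase.1 ha
          exact hc a h5 x hx h4 j hax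
    obtain ⟨x, hx, hN⟩ := key
    have h4 := ih (S.erase x) (by rw [card_erase_of_mem hx, hS]; rfl)
    have h5 : ∀ j, #((S.erase x).image (φ j)) + 1 ≤ #(S.image (φ j)) +
        (if φ j x ∈ (S.erase x).image (φ j) then 1 else 0) := by
      intro j
      have h6 : S.image (φ j) = insert (φ j x) ((S.erase x).image (φ j)) := by
        rw [← image_insert, insert_erase hx]
      rw [h6]
      by_cases h7 : φ j x ∈ (S.erase x).image (φ j)
      · rw [if_pos h7, insert_eq_of_mem h7]
      · rw [if_neg h7, card_insert_of_notMem h7]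
    have h6 := sum_le_sum fun j (_ : j ∈ (univ : Finset (Fin r))) => h5 j
    rw [sum_add_distrib, sum_add_distrib, sum_boole, sum_const, card_univ, Fintype.card_fin,
      smul_eq_mul, mul_one, Nat.cast_id] at h6
    have h7 := quarter m
    have h8 : r * (m + 1) = r * m + r := by ring
    rw [h8]
    omega

section

variable (r q : ℕ)

/-- The vertices: the lines of `(ℤ/q)³` in the directions `(1, i, i²)`, `i < r`. -/
abbrev LineV : Type := Σ _ : Fin r, ZMod q × ZMod q

/-- The line through `p` in the direction `(1, i, i²)`. -/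
def line (i : Fin r) (p : ZMod q × ZMod q × ZMod q) : ZMod q × ZMod q :=
  (p.2.1 - (i : ℕ) * p.1, p.2.2 - (i : ℕ) ^ 2 * p.1)

/-- The edges: the points of `(ℤ/q)³`, as sets of the lines through them. -/
def points : Set (Finset (LineV r q)) :=
  Set.range fun p : ZMod q × ZMod q × ZMod q =>
    edge (V := LineV r q) (X := fun _ => ZMod q × ZMod q) id fun i => line r q i p

end

section

variable {r q : ℕ}

theorem card_lineV [NeZero q] : Fintype.card (LineV r q) = r * q ^ 2 := by
  rw [Fintype.card_sigma]
  simp [ZMod.card, sq]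

theorem cast_ne [Fact q.Prime] (hrq : r ≤ q) {i j : Fin r} (hij : i ≠ j) :
    ((i : ℕ) : ZMod q) - (j : ℕ) ≠ 0 := by
  intro h
  apply hij
  apply Fin.ext
  have h1 := sub_eq_zero.1 h
  have h2 := congrArg ZMod.val h1
  rwa [ZMod.val_natCast_of_lt (lt_of_lt_of_le i.2 hrq),
    ZMod.val_natCast_of_lt (lt_of_lt_of_le j.2 hrq)] at h2

theorem line_eq {i : Fin r} {x y : ZMod q × ZMod q × ZMod q} :
    line r q i x = line r q i y ↔ x.2.1 - y.2.1 = (i : ℕ) * (x.1 - y.1) ∧
      x.2.2 - y.2.2 = (i : ℕ) ^ 2 * (x.1 - y.1) := by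
  unfold line
  rw [Prod.mk.injEq]
  constructor
  · rintro ⟨h1, h2⟩
    exact ⟨by linear_combination h1, by linear_combination h2⟩
  · rintro ⟨h1, h2⟩
    exact ⟨by linear_combination h1, by linear_combination h2⟩

theorem eq_of_fst {i : Fin r} {x y : ZMod q × ZMod q × ZMod q}
    (h : line r q i x = line r q i y) (h1 : x.1 - y.1 = 0) : x = y := by
  obtain ⟨h2, h3⟩ := line_eq.1 h
  rw [h1, mul_zero] at h2 h3
  exact Prod.ext (sub_eq_zero.1 h1) (Prod.ext (sub_eq_zero.1 h2) (sub_eq_zero.1 h3))

theorem line_two [Fact q.Prime] (hrq : r ≤ q) (i j : Fin r) (x y : ZMod q × ZMod q × ZMod q)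
    (hxy : x ≠ y) (h1 : line r q i x = line r q i y) (h2 : line r q j x = line r q j y) :
    i = j := by
  by_contra hij
  apply hxy
  apply eq_of_fst h1
  obtain ⟨h3, -⟩ := line_eq.1 h1
  obtain ⟨h4, -⟩ := line_eq.1 h2
  have h5 : (((i : ℕ) : ZMod q) - (j : ℕ)) * (x.1 - y.1) = 0 := by linear_combination h4 - h3
  exact (mul_eq_zero.1 h5).resolve_left (cast_ne hrq hij)

theorem line_three [Fact q.Prime] (hrq : r ≤ q) (i j k : Fin r)
    (x y z : ZMod q × ZMod q × ZMod q) (hxy : x ≠ y) (hyz : y ≠ z) (_ : x ≠ z)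
    (h1 : line r q i x = line r q i y) (h2 : line r q j y = line r q j z)
    (h3 : line r q k x = line r q k z) : i = j := by
  by_contra hij
  have hik : i ≠ k := by
    rintro rfl
    exact hij (line_two hrq i j y z hyz (h1.symm.trans h3) h2)
  have hjk : j ≠ k := by
    rintro rfl
    exact hij (line_two hrq i j x y hxy h1 (h3.trans h2.symm))
  apply hxy
  apply eq_of_fst h1
  obtain ⟨a1, a2⟩ := line_eq.1 h1
  obtain ⟨b1, b2⟩ := line_eq.1 h2
  obtain ⟨c1, c2⟩ := line_eq.1 h3
  have h5 : (((i : ℕ) : ZMod q) - (j : ℕ)) * ((((i : ℕ) : ZMod q) - (k : ℕ)) * (x.1 - y.1)) =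
      0 := by
    linear_combination c2 - a2 - b2 - (((k : ℕ) : ZMod q) + (j : ℕ)) * (c1 - a1 - b1)
  exact (mul_eq_zero.1 ((mul_eq_zero.1 h5).resolve_left (cast_ne hrq hij))).resolve_left
    (cast_ne hrq hik)

theorem point_injective [Fact q.Prime] (hr : 3 ≤ r) (hrq : r ≤ q) :
    Function.Injective fun (p : ZMod q × ZMod q × ZMod q) (i : Fin r) => line r q i p := by
  intro x y h
  by_contra hxy
  have h1 := congrFun h ⟨0, by omega⟩
  have h2 := congrFun h ⟨1, by omega⟩
  have h3 := line_two hrq ⟨0, by omega⟩ ⟨1, by omega⟩ x y hxy h1 h2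
  simp at h3

theorem edge_point_injective [Fact q.Prime] (hr : 3 ≤ r) (hrq : r ≤ q) :
    Function.Injective fun p : ZMod q × ZMod q × ZMod q =>
      edge (V := LineV r q) (X := fun _ => ZMod q × ZMod q) id fun i => line r q i p :=
  (edge_injective Function.injective_id).comp (point_injective hr hrq)

theorem ncard_points [Fact q.Prime] (hr : 3 ≤ r) (hrq : r ≤ q) :
    (points r q).ncard = q ^ 3 := by
  rw [points, ← Set.image_univ, Set.ncard_image_of_injective _ (edge_point_injective hr hrq),
    Set.ncard_univ, Nat.card_eq_fintype_card, Fintype.card_prod, Fintype.card_prod, ZMod.card]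
  ring

theorem points_piece : MalcevPiece r (points r q) := by
  refine ⟨fun _ => ZMod q × ZMod q, fun _ a b c => a - b + c, id,
    Set.range fun (p : ZMod q × ZMod q × ZMod q) i => line r q i p, ?_, Function.injective_id,
    ?_, ?_⟩
  · intro i a b
    refine ⟨sub_add_cancel a b, ?_⟩
    show b - b + a = a
    rw [sub_self, zero_add]
  · rintro _ ⟨p, rfl⟩ _ ⟨p', rfl⟩ _ ⟨p'', rfl⟩
    refine ⟨p - p' + p'', ?_⟩
    funext i
    refine Prod.ext ?_ ?_
    · simp only [line, Prod.fst_add, Prod.snd_add, Prod.fst_sub, Prod.snd_sub]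
      ring
    · simp only [line, Prod.fst_add, Prod.snd_add, Prod.fst_sub, Prod.snd_sub]
      ring
  · rw [points, ← Set.range_comp]
    rfl

theorem points_span [Fact q.Prime] (hr : 3 ≤ r) (hrq : r ≤ q) (e d : ℕ)
    (hd : d + e ^ 2 / 4 < r * e) : SpanMore (points r q) e d := by
  classical
  intro T hT hTe
  set g : ZMod q × ZMod q × ZMod q → Finset (LineV r q) := fun p =>
    edge (V := LineV r q) (X := fun _ => ZMod q × ZMod q) id fun i => line r q i p with hg
  have hginj : Function.Injective g := edge_point_injective hr hrq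
  set P : Finset (ZMod q × ZMod q × ZMod q) := univ.filter fun p => g p ∈ T with hP
  have hPT : P.image g = T := by
    ext a
    rw [mem_image]
    constructor
    · rintro ⟨p, hp, rfl⟩
      exact (mem_filter.1 hp).2
    · intro ha
      obtain ⟨p, rfl⟩ := hT ha
      exact ⟨p, mem_filter.2 ⟨mem_univ _, ha⟩, rfl⟩
  have hPe : #P = e := by
    rw [← hTe, ← hPT, card_image_of_injective _ hginj]
  have h1 : T = (P.image fun p => fun i : Fin r => line r q i p).image
      (edge (V := LineV r q) (X := fun _ => ZMod q × ZMod q) id) := by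
    rw [image_image, ← hPT]
    rfl
  have h2 := union_eq (V := LineV r q) (X := fun _ => ZMod q × ZMod q) (f := id)
    Function.injective_id (P.image fun p => fun i : Fin r => line r q i p)
  rw [← h1] at h2
  rw [h2]
  have h3 : ∀ i : Fin r, (P.image fun p => fun i : Fin r => line r q i p).image
      (fun x => x i) = P.image (line r q i) := by
    intro i
    rw [image_image]
    rfl
  simp only [h3]
  have h4 := mantel (line r q) (line_two hrq) (line_three hrq) e P hPe
  omega

end

/-- the grid is closed under Mal'cev operations -/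
theorem grid_malcev (n q : ℕ) : MalcevPiece (n + 1) (grid n q) := by
  refine ⟨fun _ => Fin n → Fin q, fun _ a b c k => if a k = b k then c k else a k, id,
    Set.range fun (p : Fin (n + 1) → Fin q) i => i.removeNth p, ?_, Function.injective_id, ?_, ?_⟩
  · intro i a b
    refine ⟨?_, ?_⟩
    · funext k
      by_cases h : a k = b k
      · simp [h]
      · simp [h]
    · funext k; simp
  · rintro _ ⟨p, rfl⟩ _ ⟨p', rfl⟩ _ ⟨p'', rfl⟩
    exact ⟨fun j => if p j = p' j then p'' j else p j, rfl⟩
  · rw [grid, ← Set.range_comp]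
    rfl

end Pool.T9h45.MC
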