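import Pool.Agent.T9h45.MC.Grow

/-!
# Rectangular pieces
-/

set_option autoImplicit false

namespace Pool.T9h45.MC

open Finset Pool.Agent.R181.LW Pool.Agent.R181.Maj

/-- `F` is a set of edges of an `r`-partite `r`-uniform hypergraph with the parts `f (X i)` (a
relation between `r` disjoint sets of vertices), such that for any two parts the pairs of
vertices of these parts lying in a common edge form a disjoint union of complete bipartite
graphs. -/
def RectPiece {V : Type} (r : ℕ) (F : Set (Finset V)) : Prop :=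
  ∃ (X : Fin r → Type) (f : (Σ i, X i) → V) (E : Set (∀ i, X i)), Function.Injective f ∧
    (∀ i j, i ≠ j → ∀ x ∈ E, ∀ y ∈ E, ∀ z ∈ E, x j = y j → y i = z i →
      ∃ w ∈ E, w i = x i ∧ w j = z j) ∧ F = edge f '' E

/-- `F` is a relation between `r` pairwise disjoint sets of vertices, closed under componentwise
application of some Mal'cev operations `μ i` on these sets. -/
def MalcevPiece {V : Type} (r : ℕ) (F : Set (Finset V)) : Prop :=
  ∃ (X : Fin r → Type) (μ : ∀ i, X i → X i → X i → X i) (f : (Σ i, X i) → V)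
    (E : Set (∀ i, X i)), (∀ i a b, μ i a b b = a ∧ μ i b b a = a) ∧ Function.Injective f ∧
    (∀ x ∈ E, ∀ y ∈ E, ∀ z ∈ E, (fun i => μ i (x i) (y i) (z i)) ∈ E) ∧ F = edge f '' E

theorem MalcevPiece.rect {V : Type} {r : ℕ} {F : Set (Finset V)} (h : MalcevPiece r F) :
    RectPiece r F := by
  obtain ⟨X, μ, f, E, hμ, hf, hE, rfl⟩ := h
  refine ⟨X, f, E, hf, ?_, rfl⟩
  intro i j _ x hx y hy z hz h1 h2
  refine ⟨_, hE x hx y hy z hz, ?_, ?_⟩
  · show μ i (x i) (y i) (z i) = x i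
    rw [h2]
    exact (hμ i _ _).1
  · show μ j (x j) (y j) (z j) = z j
    rw [h1]
    exact (hμ j _ _).2

theorem piece_le {V : Type} [Fintype V] {r e : ℕ} (hr : 3 ≤ r) (he : 1 ≤ e) {H : Set (Finset V)}
    (hH : SpanMore H e ((r - 2) * e + 3)) {F : Set (Finset V)} (hF : RectPiece r F)
    (hFH : F ⊆ H) :
    r ^ (3 * r) * F.ncard ^ (2 * r) ≤ (e - 1) ^ (2 * r) * Fintype.card V ^ (3 * r) := by
  classical
  obtain ⟨k, rfl⟩ : ∃ k, r = k + 3 := ⟨r - 3, by omega⟩
  obtain ⟨X, f, E, hf, hE, rfl⟩ := hF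
  have hfi : ∀ i, Function.Injective fun a : X i => f ⟨i, a⟩ := fun i a b hab =>
    eq_of_heq (Sigma.mk.inj (hf hab)).2
  have : ∀ i, Finite (X i) := fun i => Finite.of_injective _ (hfi i)
  let _ : ∀ i, Fintype (X i) := fun i => Fintype.ofFinite (X i)
  have hs : ∀ T ⊆ E.toFinset, #T = e → (k + 3 - 2) * e + 3 < vx T := by
    intro T hT hTe
    have h1 := hH (T.image (edge f)) (by
      rw [coe_image]
      intro a ha
      obtain ⟨x, hx, rfl⟩ := ha
      exact hFH ⟨x, Set.mem_toFinset.1 (hT hx), rfl⟩)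
      (by rw [card_image_of_injective _ (edge_injective hf), hTe])
    rw [union_eq hf] at h1
    exact h1
  have hR : Rect E.toFinset := by
    intro i j hij x hx y hy z hz h1 h2
    rw [Set.mem_toFinset] at hx hy hz
    obtain ⟨w, hw, h3, h4⟩ := hE i j hij x hx y hy z hz h1 h2
    exact ⟨w, Set.mem_toFinset.2 hw, h3, h4⟩
  set a : Fin (k + 3) → ℕ := fun i => #(E.toFinset.image fun x => x i) with ha
  have h1 : ∀ i : Fin (k + 3), #E.toFinset ^ 2 ≤ (e - 1) ^ 2 * (a i * a (i + 1) * a (i + 2)) := by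
    intro i
    have n1 : (1 : Fin (k + 3)) ≠ 0 := by
      intro h
      have := congrArg Fin.val h
      simp at this
    have n2 : (2 : Fin (k + 3)) ≠ 0 := by
      intro h
      have h' := congrArg Fin.val h
      have h'' : ((2 : Fin (k + 3)) : ℕ) = 2 := Fin.val_two
      rw [h''] at h'
      simp at h'
    have n3 : (2 : Fin (k + 3)) = 1 + 1 := by
      refine Fin.ext ?_
      have h1' : ((1 : Fin (k + 3)) : ℕ) = 1 := Fin.val_one _
      rw [Fin.val_add, Fin.val_two, h1', Nat.mod_eq_of_lt (by omega)]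
    refine bound hr E.toFinset hR e he hs ?_ ?_ ?_
    · intro h
      exact n1 (left_eq_add.1 h)
    · intro h
      exact n2 (left_eq_add.1 h)
    · intro h
      have h' := add_left_cancel h
      rw [n3] at h'
      exact n1 (left_eq_add.1 h')
  have h2 : #E.toFinset ^ (2 * (k + 3)) ≤ (e - 1) ^ (2 * (k + 3)) * (∏ i, a i) ^ 3 := by
    have h3 := Finset.prod_le_prod' fun i (_ : i ∈ (univ : Finset (Fin (k + 3)))) => h1 i
    rw [prod_const, card_univ, Fintype.card_fin, prod_mul_distrib, prod_const, card_univ,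
      Fintype.card_fin, prod_mul_distrib, prod_mul_distrib, ← pow_mul, ← pow_mul] at h3
    have h4 : ∀ c : Fin (k + 3), ∏ i, a (i + c) = ∏ i, a i := fun c =>
      Equiv.prod_comp (Equiv.addRight c) a
    rw [h4, h4] at h3
    calc _ ≤ _ := h3
      _ = _ := by ring
  rw [← Set.ncard_eq_toFinset_card'] at h2
  have h5 : (edge f '' E).ncard = E.ncard := Set.ncard_image_of_injective _ (edge_injective hf)
  rw [h5]
  have h6 : ∏ i, a i ≤ ∏ i, Fintype.card (X i) := prod_le_prod' fun i _ => card_le_univ _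
  have h7 := amgm (univ : Finset (Fin (k + 3))) univ_nonempty fun i => Fintype.card (X i)
  rw [card_univ, Fintype.card_fin] at h7
  have h8 : ∑ i, Fintype.card (X i) ≤ Fintype.card V := by
    rw [← Fintype.card_sigma]
    exact Fintype.card_le_of_injective f hf
  have h9 : (k + 3) ^ (k + 3) * ∏ i, a i ≤ Fintype.card V ^ (k + 3) :=
    (Nat.mul_le_mul_left _ h6).trans (h7.trans (Nat.pow_le_pow_left h8 _))
  calc (k + 3) ^ (3 * (k + 3)) * E.ncard ^ (2 * (k + 3))
      ≤ (k + 3) ^ (3 * (k + 3)) * ((e - 1) ^ (2 * (k + 3)) * (∏ i, a i) ^ 3) :=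
        Nat.mul_le_mul_left _ h2
    _ = (e - 1) ^ (2 * (k + 3)) * ((k + 3) ^ (k + 3) * ∏ i, a i) ^ 3 := by
        rw [mul_pow, ← pow_mul, mul_comm (k + 3) 3]; ring
    _ ≤ (e - 1) ^ (2 * (k + 3)) * (Fintype.card V ^ (k + 3)) ^ 3 :=
        Nat.mul_le_mul_left _ (Nat.pow_le_pow_left h9 3)
    _ = _ := by rw [← pow_mul, mul_comm (k + 3) 3]

/-- the union of `L` pieces -/
theorem upper (r e L : ℕ) (hr : 3 ≤ r) (he : 1 ≤ e) (V : Type) [Fintype V] (H : Set (Finset V))
    (F : Fin L → Set (Finset V)) (hF : ∀ i, RectPiece r (F i)) (hH : H = ⋃ i, F i)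
    (hsp : SpanMore H e ((r - 2) * e + 3)) :
    (H.ncard : ℝ) ≤ (e - 1) * L * ((Fintype.card V : ℝ) / r) ^ ((3 : ℝ) / 2) := by
  classical
  have he1 : (0 : ℝ) ≤ (e : ℝ) - 1 := by
    have : (1 : ℝ) ≤ e := by exact_mod_cast he
    linarith
  have hr3 : (3 : ℝ) ≤ r := by exact_mod_cast hr
  have h1 : ∀ i, ((F i).ncard : ℝ) ≤
      (e - 1) * ((Fintype.card V : ℝ) / r) ^ ((3 : ℝ) / 2) := by
    intro i
    have h2 := piece_le (r := r) (e := e) hr he (H := H) hsp (hF i)
      (by rw [hH]; exact Set.subset_iUnion F i)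
    refine le_of_pow_le_pow_left₀ (n := 2 * r) (by omega) (by positivity) ?_
    have h3 : (((Fintype.card V : ℝ) / r) ^ ((3 : ℝ) / 2)) ^ (2 * r) =
        ((Fintype.card V : ℝ) / r) ^ (3 * r) := by
      rw [← Real.rpow_natCast, ← Real.rpow_mul (by positivity), ← Real.rpow_natCast _ (3 * r)]
      congr 1
      push_cast
      ring
    rw [mul_pow, h3]
    have h4 : ((r ^ (3 * r) * (F i).ncard ^ (2 * r) : ℕ) : ℝ) ≤
        (((e - 1) ^ (2 * r) * Fintype.card V ^ (3 * r) : ℕ) : ℝ) := by exact_mod_cast h2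
    rw [Nat.cast_mul, Nat.cast_mul, Nat.cast_pow, Nat.cast_pow, Nat.cast_pow, Nat.cast_pow,
      Nat.cast_sub he, Nat.cast_one] at h4
    rw [div_pow, ← mul_div_assoc, le_div_iff₀ (by positivity)]
    linarith
  have h6 : H.ncard ≤ ∑ i : Fin L, (F i).ncard := by
    rw [hH]
    exact Set.ncard_iUnion_le_of_fintype F
  calc (H.ncard : ℝ) ≤ ((∑ i : Fin L, (F i).ncard : ℕ) : ℝ) := by exact_mod_cast h6
    _ = ∑ i : Fin L, ((F i).ncard : ℝ) := by push_cast; rfl
    _ ≤ ∑ _i : Fin L, (e - 1) * ((Fintype.card V : ℝ) / r) ^ ((3 : ℝ) / 2) :=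
        sum_le_sum fun i _ => h1 i
    _ = (e - 1) * L * ((Fintype.card V : ℝ) / r) ^ ((3 : ℝ) / 2) := by
        rw [sum_const, card_univ, Fintype.card_fin, nsmul_eq_mul]; ring

end Pool.T9h45.MC
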