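import Pool.Agent.R181.MajPieces

/-!
# Relations with rectangular pair projections
-/

set_option autoImplicit false

namespace Pool.T9h45.MC

open Finset Pool.Agent.R181.LW Pool.Agent.R181.Maj

section

variable {r : ℕ} {X : Fin r → Type} [∀ i, DecidableEq (X i)]

/-- the pair projections of `E` are rectangular -/
def Rect (E : Finset (∀ i, X i)) : Prop :=
  ∀ i j, i ≠ j → ∀ x ∈ E, ∀ y ∈ E, ∀ z ∈ E, x j = y j → y i = z i →
    ∃ w ∈ E, w i = x i ∧ w j = z j

/-- the pairs `(x i, x j)` and `(y i, y j)` belong to the same rectangle -/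
def Sim (E : Finset (∀ i, X i)) (i j : Fin r) (x y : ∀ i, X i) : Prop :=
  ∃ w ∈ E, w i = x i ∧ w j = y j

variable {E : Finset (∀ i, X i)}

theorem Sim.refl {i j : Fin r} {x : ∀ i, X i} (hx : x ∈ E) : Sim E i j x x := ⟨x, hx, rfl, rfl⟩

theorem Sim.symm (hE : Rect E) {i j : Fin r} (hij : i ≠ j) {x y : ∀ i, X i} (hx : x ∈ E)
    (hy : y ∈ E) (h : Sim E i j x y) : Sim E i j y x := by
  obtain ⟨w, hw, h1, h2⟩ := h
  exact hE i j hij y hy w hw x hx h2.symm h1

theorem Sim.trans (hE : Rect E) {i j : Fin r} (hij : i ≠ j) {x y z : ∀ i, X i}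
    (hy : y ∈ E) (h : Sim E i j x y) (h' : Sim E i j y z) : Sim E i j x z := by
  obtain ⟨w, hw, h1, h2⟩ := h
  obtain ⟨w', hw', h3, h4⟩ := h'
  obtain ⟨v, hv, h5, h6⟩ := hE i j hij w hw y hy w' hw' h2 h3.symm
  exact ⟨v, hv, h5.trans h1, h6.trans h4⟩

theorem sim_of_left {i j : Fin r} {x y : ∀ i, X i} (hy : y ∈ E) (h : x i = y i) :
    Sim E i j x y := ⟨y, hy, h.symm, rfl⟩

theorem sim_of_right {i j : Fin r} {x y : ∀ i, X i} (hx : x ∈ E) (h : x j = y j) :
    Sim E i j x y := ⟨x, hx, rfl, h⟩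

/-- the class of `x` -/
noncomputable def cl (E : Finset (∀ i, X i)) (i j : Fin r) (x : ∀ i, X i) : Finset (∀ i, X i) :=
  open Classical in E.filter (fun y => Sim E i j x y)

theorem cl_eq (hE : Rect E) {i j : Fin r} (hij : i ≠ j) {x y : ∀ i, X i} (hx : x ∈ E)
    (hy : y ∈ E) : cl E i j x = cl E i j y ↔ Sim E i j x y := by
  classical
  constructor
  · intro h
    have h1 : y ∈ cl E i j y := mem_filter.2 ⟨hy, Sim.refl hy⟩
    rw [← h] at h1
    exact (mem_filter.1 h1).2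
  · intro h
    ext z
    unfold cl
    rw [mem_filter, mem_filter]
    constructor
    · rintro ⟨h1, h2⟩
      exact ⟨h1, (h.symm hE hij hx hy).trans hE hij hx h2⟩
    · rintro ⟨h1, h2⟩
      exact ⟨h1, h.trans hE hij hy h2⟩

/-- the three classes of an edge -/
noncomputable def tau (E : Finset (∀ i, X i)) (i j k : Fin r) (x : ∀ i, X i) :
    Fin 3 → Finset (∀ i, X i) := ![cl E j k x, cl E i k x, cl E i j x]

/-- an element of the class with given vertices -/
theorem pick (hE : Rect E) {i j k : Fin r} (hij : i ≠ j) (hik : i ≠ k) (hjk : j ≠ k)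
    {x y : ∀ i, X i} (hx : x ∈ E) (hy : y ∈ E)
    (h1 : Sim E i j x y) (h2 : Sim E i k x y) (h3 : Sim E j k x y) :
    ∃ w ∈ E, w i = x i ∧ w j = y j ∧ Sim E i j x w ∧ Sim E i k x w ∧ Sim E j k x w := by
  obtain ⟨w, hw, h4, h5⟩ := h1
  refine ⟨w, hw, h4, h5, sim_of_left hw h4.symm, sim_of_left hw h4.symm, ?_⟩
  exact h3.trans hE hjk hy (sim_of_left hw h5.symm)

end

end Pool.T9h45.MC
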